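import Pool.Agent.Lib.MP_b7851d_lc.Star.N3a.H99.Bl

/-!
# C1
-/

set_option linter.unusedSectionVars false
set_option linter.unusedVariables false

namespace Pool.Agent.QuadEq.Star.N3a.H99

variable {α : Type} [DecidableEq α] {lam io : α → α} {e f : α}

theorem sub_expL (blk : α → List α) : ∀ l : List α, l.Sublist (expL blk l)
  | [] => List.Sublist.refl _
  | a :: l => by
    rw [expL_cons]
    exact ((sub_expL blk l).cons_cons a).trans (List.sublist_append_right _ _)

theorem filter_sub {Y : α → Bool} {l l1 : List α} (hs : l1.Sublist l) (hn : l.Nodup)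
    (hY : ∀ x ∈ l, Y x = true ↔ x ∈ l1) : l.filter Y = l1 := by
  have h1 : l1.filter Y = l1 := List.filter_eq_self.2 fun x hx => (hY x (hs.subset hx)).2 hx
  have h2 : l1.Sublist (l.filter Y) := by
    have := hs.filter Y
    rwa [h1] at this
  refine (h2.eq_of_length_le ?_).symm
  refine (List.subperm_of_subset (hn.filter Y) fun x hx => ?_).length_le
  have := List.mem_filter.1 hx
  exact (hY x this.1).1 this.2

theorem blk_nil {blk : α → List α} {l L1 L2 : List α} {c : α} {Y : α → Bool}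
    (h : expL blk l = L1 ++ c :: L2) (hn : (expL blk l).Nodup) (hc : c ∈ l)
    (hY : ∀ a, L1.getLast? = some a → Y a = true) (hb : ∀ a, ∀ z ∈ blk a, Y z = false) :
    blk c = [] := by
  obtain ⟨l1, l2, rfl⟩ := List.append_of_mem hc
  have e1 : expL blk (l1 ++ c :: l2) = (expL blk l1 ++ blk c) ++ c :: expL blk l2 := by
    rw [expL_append, expL_cons]; simp
  rw [e1] at h hn
  have n1 : c ∉ expL blk l1 ++ blk c := fun hx => by
    rw [List.nodup_append] at hn
    exact hn.2.2 c hx c (by simp) rfl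
  have n2 : c ∉ expL blk l2 := by
    rw [List.nodup_append, List.nodup_cons] at hn
    exact hn.2.1.1
  have h3 := ((List.append_cons_inj_of_notMem n1 n2).1 h).1
  by_contra h4
  have h5 : (expL blk l1 ++ blk c).getLast? = some ((blk c).getLast h4) := by
    rw [List.getLast?_append, List.getLast?_eq_some_getLast h4]
    rfl
  have h6 := hY _ (h3 ▸ h5)
  rw [hb c _ (List.getLast_mem h4)] at h6
  exact absurd h6 (by simp)

/-- The embedding gives the names and the blocks. -/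
theorem emb_bl {s : St ℕ} {S : St α} (hS : Dst lam e f S) (hs : Dst xl 0 1 s)
    (h : Emb lam e f s S) : ∃ φ blk, Bl lam e f s φ blk S := by
  obtain ⟨φ, inj, com, f0, f1, fm, sP, sQ⟩ := h
  have nd := hS.ok.nd
  rw [List.nodup_append] at nd
  set Y : α → Bool := fun x => decide (x ∈ (s.P ++ s.Q).map φ) with hYdef
  have hY : ∀ x, Y x = true ↔ x ∈ s.P.map φ ∨ x ∈ s.Q.map φ := fun x => by
    simp [hYdef]
  have eP : S.P.filter Y = s.P.map φ := filter_sub sP nd.1 fun x hx => by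
    rw [hY]
    constructor
    · rintro (h | h)
      · exact h
      · exact absurd rfl (nd.2.2 x hx x (sQ.subset h))
    · exact Or.inl
  have eQ : S.Q.filter Y = s.Q.map φ := filter_sub sQ nd.2.1 fun x hx => by
    rw [hY]
    constructor
    · rintro (h | h)
      · exact absurd rfl (nd.2.2 x (sP.subset h) x hx)
      · exact h
    · exact Or.inr
  have eR : S.res Y = s.map φ := St.ext' eP eQ fm.symm
  have m0 : (0 : ℕ) ∈ s.P := List.mem_of_getLast? hs.ok.le
  have m1 : (1 : ℕ) ∈ s.Q := List.mem_of_getLast? hs.ok.lf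
  have he : Y e = true := (hY e).2 (Or.inl (List.mem_map.2 ⟨0, m0, f0⟩))
  have hf : Y f = true := (hY f).2 (Or.inr (List.mem_map.2 ⟨1, m1, f1⟩))
  have hm : ∀ x ∈ s.P ++ s.Q, Y (φ x) = true := fun x hx => (hY _).2 (by
    rcases List.mem_append.1 hx with h | h
    · exact Or.inl (List.mem_map_of_mem h)
    · exact Or.inr (List.mem_map_of_mem h))
  obtain ⟨blk, hb, hbY⟩ := exists_expand (A := Y) hS.ok he hf
  rw [eR] at hb
  have bP : expL blk (s.P.map φ) = S.P := congrArg St.P hb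
  have bQ : expL blk (s.Q.map φ) = S.Q := congrArg St.Q hb
  refine ⟨φ, blk, hs, ⟨hs.ok, inj, com, f0, f1⟩, ?_, ?_, hb.symm, hS.ok⟩
  · obtain ⟨A, hA⟩ := hS.top
    refine blk_nil (l := s.P.map φ) (L1 := A ++ [lam S.m]) (L2 := []) (Y := Y) ?_ ?_
      (List.mem_map.2 ⟨0, m0, f0⟩) ?_ hbY
    · rw [bP, hA]; simp
    · rw [bP]; exact nd.1
    · intro a ha
      rw [List.getLast?_append] at ha
      obtain rfl : lam S.m = a := by simpa using ha
      rw [← fm, ← com _ hs.ok.pm]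
      exact hm _ (hs.ok.mem _ hs.ok.pm)
  · obtain ⟨B, hB⟩ := hS.bot
    refine blk_nil (l := s.Q.map φ) (L1 := B ++ [S.m]) (L2 := []) (Y := Y) ?_ ?_
      (List.mem_map.2 ⟨1, m1, f1⟩) ?_ hbY
    · rw [bQ, hB]; simp
    · rw [bQ]; exact nd.2.1
    · intro a ha
      rw [List.getLast?_append] at ha
      obtain rfl : S.m = a := by simpa using ha
      rw [← fm]
      exact hm _ hs.ok.pm

/-- The names of the gadget. -/
def psi (t : St ℕ) (g : ℕ × ℕ × ℕ) : ℕ → ℕ
  | 2 => t.m
  | 3 => xl t.m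
  | 4 => g.1
  | 5 => xl g.1
  | 6 => g.2.1
  | 7 => xl g.2.1
  | 8 => g.2.2
  | 9 => xl g.2.2
  | i => i

theorem gad_emb {t : St ℕ} {g : ℕ × ℕ × ℕ} {φ : ℕ → α} {blk : α → List α} {S : St α}
    (h : Bl lam e f t φ blk S) (hg : gadB t g = true) : Emb lam e f gad S := by
  simp only [gadB, Bool.and_eq_true, List.isSublist_iff_sublist] at hg
  obtain ⟨g1, g2⟩ := hg
  have g1' : (gad.P.map (psi t g)).Sublist t.P := g1
  have g2' : (gad.Q.map (psi t g)).Sublist t.Q := g2
  have g3 : ((gad.P ++ gad.Q).map (psi t g)).Sublist (t.P ++ t.Q) := by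
    rw [List.map_append]; exact g1'.append g2'
  have nd := g3.nodup h.nm.ok.nd
  have hmem : ∀ x ∈ gad.P ++ gad.Q, psi t g x ∈ t.P ++ t.Q := fun x hx =>
    g3.subset (List.mem_map_of_mem hx)
  have inj0 : ∀ x ∈ gad.P ++ gad.Q, ∀ y ∈ gad.P ++ gad.Q, psi t g x = psi t g y → x = y :=
    fun x hx y hy hxy => List.inj_on_of_nodup_map nd hx hy hxy
  have hc : ∀ x ∈ gad.P ++ gad.Q, psi t g (xl x) = xl (psi t g x) := by
    have k0 : xl (xl t.m) = t.m := h.nm.ok.inv _ h.nm.ok.pm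
    have k1 : xl (xl g.1) = g.1 := h.nm.ok.inv _ (hmem 4 (by decide))
    have k2 : xl (xl g.2.1) = g.2.1 := h.nm.ok.inv _ (hmem 6 (by decide))
    have k3 : xl (xl g.2.2) = g.2.2 := h.nm.ok.inv _ (hmem 8 (by decide))
    intro x hx
    have hx' : x ∈ [4, 5, 6, 7, 3, 0, 8, 9, 2, 1] := hx
    simp only [List.mem_cons, List.not_mem_nil, or_false] at hx'
    rcases hx' with rfl | rfl | rfl | rfl | rfl | rfl | rfl | rfl | rfl | rfl <;>
      first | rfl | exact k0.symm | exact k1.symm | exact k2.symm | exact k3.symm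
  refine ⟨fun x => φ (psi t g x), ?_, ?_, h.nm.f0, h.nm.f1, ?_, ?_, ?_⟩
  · intro x hx y hy hxy
    exact inj0 x hx y hy (h.nm.inj _ (hmem x hx) _ (hmem y hy) hxy)
  · intro x hx
    dsimp only
    rw [hc x hx, h.nm.com _ (hmem x hx)]
  · rw [h.eq]; rfl
  · have : gad.P.map (fun x => φ (psi t g x)) = (gad.P.map (psi t g)).map φ := by simp
    rw [this, h.eq]
    exact (g1'.map φ).trans (sub_expL _ _)
  · have : gad.Q.map (fun x => φ (psi t g x)) = (gad.Q.map (psi t g)).map φ := by simp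
    rw [this, h.eq]
    exact (g2'.map φ).trans (sub_expL _ _)

theorem chk1_spec {s : St ℕ} {c : List Bool × List Bool × ℕ × ℕ × ℕ} (h : chk1 s c = true) :
    Dst xl 0 1 s ∧ ∃ w w' t g, exec xl w s = some t ∧ exec xl w' t = some s ∧ Dst xl 0 1 t ∧
      gadB t g = true ∧ w.length ≤ 30 ∧ w'.length ≤ 30 := by
  unfold chk1 at h
  cases hd : exec xl c.1 s with
  | none => rw [hd] at h; simp at h
  | some t =>
    rw [hd] at h
    simp only [Bool.and_eq_true, decide_eq_true_eq] at h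
    exact ⟨dstB_spec h.1.1.1, c.1, c.2.1, t, c.2.2, hd, h.2.1.1, dstB_spec h.2.1.2, h.2.2,
      h.1.1.2, h.1.2⟩

/-- Row C1. -/
theorem c1 : C1Stm := by
  refine ⟨30, fun α _ lam io e f X S hS _ s hs he => ?_⟩
  obtain ⟨c, hc⟩ := chks_mem chk_LY s hs
  obtain ⟨h1, w, w', t, g, h2, h3, h4, h5, h6, h7⟩ := chk1_spec hc
  obtain ⟨φ, blk, hbl⟩ := emb_bl hS h1 he
  obtain ⟨k1, k2⟩ := hbl.move h2 h3 h4 h6 h7
  exact ⟨_, k1, k2.dst, gad_emb k2 h5⟩

end Pool.Agent.QuadEq.Star.N3a.H99
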