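import Pool.Agent.Lib.MP_b7851d_lc.Star.N3a.LY

/-!
# The finite checks for C1 and C2

`chk1`: a pattern of `LY` with two words of moves (there and back) and the names of the gadget.
`chk2`: a pattern with the gadget, `u`, `v` and the token before `v`.
-/

namespace Pool.Agent.QuadEq.Star.N3a.H99

/-- All insertions of a token in a word. -/
def inserts (t : ℕ) : List ℕ → List (List ℕ)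
  | [] => [[t]]
  | a :: l => (t :: a :: l) :: (inserts t l).map (a :: ·)

/-- All insertions of a token in one of two words. -/
def ins2 (t : ℕ) (p : List ℕ × List ℕ) : List (List ℕ × List ℕ) :=
  (inserts t p.1).map (fun x => (x, p.2)) ++ (inserts t p.2).map (fun y => (p.1, y))

/-- `b` comes right after `a`. -/
def nxb (a b : ℕ) : List ℕ → Bool
  | [] => false
  | x :: l => (x == a && l.head? == some b) || nxb a b l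

/-- The D-pattern with the words `A` and `B`. -/
def mkS (p : List ℕ × List ℕ) : St ℕ := ⟨p.1 ++ [3, 0], p.2 ++ [2, 1], 2⟩

/-- The Boolean form of `Ok`. -/
def okB (s : St ℕ) : Bool :=
  (s.P ++ s.Q).all (fun x => xl (xl x) == x && xl x != x && (s.P ++ s.Q).contains (xl x)) &&
    decide (s.P ++ s.Q).Nodup && s.P.getLast? == some 0 && s.Q.getLast? == some 1 &&
    (s.P ++ s.Q).contains s.m && s.m != 0 && s.m != 1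

/-- The Boolean form of `Dst`. -/
def dstB (s : St ℕ) : Bool :=
  okB s && (s.P.reverse.take 2).reverse == [xl s.m, 0] &&
    (s.Q.reverse.take 2).reverse == [s.m, 1] &&
    s.P.any (fun x => s.P.contains (xl x)) && s.Q.any (fun x => s.Q.contains (xl x))

/-- The gadget with the names `g`. -/
def gadB (t : St ℕ) (g : ℕ × ℕ × ℕ) : Bool :=
  [g.1, xl g.1, g.2.1, xl g.2.1, xl t.m, 0].isSublist t.P &&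
    [g.2.2, xl g.2.2, t.m, 1].isSublist t.Q

/-- The check of one case of C1. -/
def chk1 (s : St ℕ) (c : List Bool × List Bool × ℕ × ℕ × ℕ) : Bool :=
  dstB s && decide (c.1.length ≤ 30) && decide (c.2.1.length ≤ 30) &&
  match exec xl c.1 s with
  | none => false
  | some t => decide (exec xl c.2.1 t = some s) && dstB t && gadB t c.2.2

/-- The check of one case of C2. -/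
def chk2 (u v : ℕ) (s : St ℕ) (c : List Bool × List Bool) : Bool :=
  dstB s && decide (c.1.length ≤ 30) && decide (c.2.length ≤ 30) &&
  match exec xl c.1 s with
  | none => false
  | some t => decide (exec xl c.2 t = some s) && dstB t && t.P.take 2 == [u, v] &&
      dstB (t.del u v)

/-- The check of a list of cases. -/
def chks {β γ : Type} (c : β → γ → Bool) : List β → List γ → Bool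
  | [], _ => true
  | s :: l, w :: ws => c s w && chks c l ws
  | _ :: _, [] => false

theorem chks_mem {β γ : Type} {c : β → γ → Bool} : ∀ {l : List β} {ws : List γ},
    chks c l ws = true → ∀ s ∈ l, ∃ w, c s w = true
  | [], _, _, s, hs => by simp at hs
  | s :: l, [], h, _, _ => by simp [chks] at h
  | s :: l, w :: ws, h, s', hs' => by
    simp only [chks, Bool.and_eq_true] at h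
    rcases List.mem_cons.1 hs' with rfl | hs'
    · exact ⟨w, h.1⟩
    · exact chks_mem h.2 s' hs'

/-- The gadget. -/
def g0 : List ℕ × List ℕ := ([4, 5, 6, 7], [8, 9])

/-- The patterns with `u = 4`, `v = 5`, the token before `v` is new. -/
def patII : List (List ℕ × List ℕ) := ((ins2 10 g0).flatMap (ins2 11)).filter fun p =>
  p.1.head? == some 4 && (nxb 10 5 p.1 || nxb 10 5 p.2)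

/-- The patterns with `u = 10`, `v = 11`, the token before `v` is old. -/
def patIII : List (List ℕ × List ℕ) := (ins2 11 (10 :: g0.1, g0.2)).filter fun p =>
  p.1.head? == some 10 && (List.range 12).any fun i => nxb i 11 p.1 || nxb i 11 p.2

/-- The patterns with `u = 10`, `v = 11`, the token before `v` is new. -/
def patIV : List (List ℕ × List ℕ) :=
  (((ins2 11 (10 :: g0.1, g0.2)).flatMap (ins2 12)).flatMap (ins2 13)).filter fun p =>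
    p.1.head? == some 10 && (nxb 12 11 p.1 || nxb 12 11 p.2)

/-! The letters of the words of moves. -/

namespace W

/-- The move T. -/
abbrev t : Bool := true

/-- The move B. -/
abbrev b : Bool := false

end W

section

open W

theorem chk_LY : chks chk1 LY
  [
   ([], [], 4, 6, 8), ([b,b,t,b,t,t,t,b,t,t,t,b,t], [b,b,b,t,b,b,b,t,t], 4, 3, 6),
   ([t,t,t,b,t,b], [t,t,b,t,b,t,b,b,t,b], 4, 2, 8),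
   ([t,t,t,b,t,t,b,t,t,t,b], [t,b,t,b,b,b,t,t,b], 4, 2, 8),
   ([b,b,t,b,t,b,t,t,t,t,b,t], [b,b,b,t,b,b,b,t], 4, 8, 6),
   ([t,b,t,b,b,t,t,b,t,b,t,t,t], [t,t,b,b,b,t,b,b,b,t], 4, 6, 8),
   ([b,b,t,t,b,t,b,t,b,t,b,t,t,b], [b,b,b,t,b,b,t,t,t,b,t,t], 4, 11, 6),
   ([t,t,b,b,t,b,t,t,b,t,t,b], [b,b,b,t,b,t,b,t,t,b,b,t], 4, 2, 8),
   ([b,b,t,b,b,t,b,t,t,t,t,b,t], [b,b,b,b,t,b,b,t], 4, 6, 8),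
   ([t,t,t,b,t,b,b,t,t,b,b,t], [b,b,b,t,b,t,t,b,b,t,t,b], 4, 6, 8),
   ([t,t,t,t,b,t,b,b,t,b,t,b,t,b,b,t,t,b,t], [b,b,b,b,t,b,b,b,t,b,t], 4, 6, 9),
   ([t,b,b,t,b,t,t,b,t,t,t,b,t,t,b], [b,b,b,t,b,t,b,t,b,t,b,t,t], 4, 2, 9),
   ([b,b,t,b,t,b,t,b,t,t,t,b,t], [b,b,b,t,b,t,b,b,t], 4, 6, 8),
   ([t,t,b,t,b,b,t,b,b,t,b,b,t,t,b,b,t,b,b], [t,t,b,b,b,t,b,b,t,b], 4, 6, 10),
   ([t,t,b,b,b,t,b,t,t,b,t,b,b,t,t,b,b,t,b,t], [b,b,b,b,t,b,b,t,b,t,t,t], 4, 3, 10),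
   ([t,t,t,b,t,b,t,b,b,b,b], [t,t,b,b,t,b,t,b,b,t,b,t], 2, 7, 10),
   ([t,b,t,t,t,b,t,t,t], [t,t,b,b,t,b,b,b,t], 4, 8, 7),
   ([t,b,t,t,b,t,t,t], [t,t,b,b,t,b,b,t], 4, 9, 7),
   ([t,b,b,b,t,b,t,t,b,b,t,t,b,t,t,t,t,b,b], [t,b,t,b,b,b,t,t,b], 10, 2, 9),
   ([t,t,b,t,t,b,t,b,t,t,b,b,t,b,b,t], [t,t,b,t,b,t,t,b,t,b,b,t,b], 4, 2, 10),
   ([b,b,b,t,b,t,b,t,b,t,t,t,b,b,t,b], [t,t,b,b,t,b,b,t,b], 4, 10, 7),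
   ([b,b,b,b,t,b,t,b,t,t,t,b,t,b], [t,t,b,b,t,b,t,b,t,b,b,b], 4, 2, 10),
   ([b,t,b,b,t,t,b,b,b,t,b,b,t,t,t,b,t,b], [t,t,b,b,t,b,b,b,t,b,t,b,t,t,b,t,b,b,t], 4, 2, 9),
   ([t,t,b,t,t,b,t], [t,b,b,t,b,b,t,t,t,t], 4, 9, 6),
   ([t,t,b,t,b,t,t,t,t,b], [t,t,b,t,b,b,b,t,t,b], 10, 2, 9),
   ([t,t,t,b,t,t,t,b,b,b,b], [t,t,b,t,b,b,b,b,b,t,b,b,b,t,b], 2, 6, 8),
   ([t,b,b,b,b,t,b,t,t,b,b,t,t,b,t,t,t,t,b], [t,b,t,b,b,b,t,t,b,b,b], 10, 2, 9),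
   ([t,t,t,b,t,b,b,b,b,b,t,b,t,t,b,b,b,b], [t,t,b,b,t,b,b,b,b,b,t,b,t,b,b], 9, 6, 10),
   ([b,b,t,b,t,b,b,b,t,b,b,t,t,t,b,t,b], [t,t,b,b,t,b,b,b,t,b,t,b,t,t,b,b,t,b,t], 4, 2, 9),
   ([t,t,t,b,b,b,t,b,t,b,b,b,t,b,t,b], [b,b,t,b,t,b,b,b,t,b], 7, 10, 8),
   ([b,b,t,b,t,b,b,b,t,b,t,b,t,b,b,t,b,b,b], [b,b,b,b,t,b,b,b,t,b,t,b,t,b,b], 4, 7, 9),
   ([t,t,t,b,t,b,t,t,t,t,b], [t,t,b,t,b,t,t,b,b,b,b,t,t,b], 4, 2, 8),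
   ([t,b,t,t,b,t,t,t,t,b,t], [b,t,b,t,b,b,b,b,t,b,b], 4, 9, 7),
   ([t,t,t,b,b,b,t,t,b], [t,t,b,b,b,b,t,b,b,t,b,t,t,b,t,t], 4, 2, 10),
   ([t,b,t,b,t,b,t,b,t,t], [t,b,t,b,t,b,b,t,t,b,t], 4, 11, 7),
   ([t,t,b,t,b,t,b,t,b,t,b,b,t,b,t,b,t,b], [b,t,b,b,b,t,t,b,b,b,b], 4, 7, 9),
   ([b,b,b,t,b,b,t,b,b,t], [b,b,b,b,t,b,t,b,b,t], 4, 9, 3),
   ([t,t,b,t,b,b,b,t,b,b,t,b,b,b,b], [t,t,t,b,t,b,b,b,b], 4, 7, 10),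
   ([t,b,b,t,b,t,b,t,t,t,b,t], [b,t,b,t,b,b,b,t,b,b,b], 4, 10, 6),
   ([b,b,b,t,b,t,b], [t,t,t,b,b,t,b,t,t,b,t,b,t,b,b,b], 7, 9, 10),
   ([t,t,b,b,b,t,b,b,b,t,b,t,b,t,b,t,b], [t,t,b,b,b,t,t,b,b,t,b,t,t,b,b,t,b], 4, 8, 10),
   ([b,b,b,t,b,t,b,b,t,t,t,b,t,b], [t,t,b,b,t,b,b,b,t,b,t,b], 4, 2, 10),
   ([b,b,t,t,b,b,b,b,t,b,t,t,b,b,t,b,t,b,t,b,t], [b,b,b,t,b,b,b,t,b,t,t,t,b,t,b], 4, 7, 9),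
   ([t,b,t,t,b,t,t,b,t,b,t,b,t,t], [t,b,b,t,t,b,t,t,t,b,t,t], 4, 11, 9),
   ([b,b,b,t,b,b,b,t,b,t,t,b,b,t,b,t,b,t,b,t], [b,b,b,t,b,b,b,t,b,t,t,t,t,b,b], 4, 9, 7),
   ([t,t,t,b,t,b,t,b,t,b,t,b,t,t,t,b], [t,t,b,t,t,t,b,b,t], 4, 8, 7),
   ([t,t,b,t,b,t,t,b,b,b], [t,t,b,t,b,t,t,b], 2, 8, 11),
   ([t,t,b,t,b,b,b,b,b,t,b,b,b,t,b,b,b], [t,t,t,b,t,t,t,b,b], 4, 8, 10),
   ([t,t,b,b,t,b,t,t,t,t,b], [t,t,b,b,t,b,b,t,t,t,b], 4, 2, 11),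
   ([b,t,b,t,t,t,b,b,b,b,t,b,t,t,b,b,t,b,t,b,t,b,b,t], [b,b,b,t,t,b,b,b,t,b,b,t,t,b,b,b], 4, 10, 6),
   ([t,b,t,b,t,b,t,b,t,t,t], [t,t,b,t,b,b,b,t,t,b,t,b,b,t,b,t], 9, 11, 7),
   ([t,b,t,b,t,b,b,b,b,t,t,t], [t,b,b,b,t,b,b,t,b,b,t,t,b,t,b,b,t], 11, 7, 12),
   ([t,b,t,b,b,t,b,b,t,b,b,b,t,t,b,t,b,t,t], [t,t,t,b,b,b,t,b,b,t,t,b,t,t], 4, 6, 13),
   ([t,b,t,b,t,b,b,b,t,t,b,t,b,t,t], [t,t,t,b,b,t,b,b,t,t,b,t,t,t], 4, 13, 7),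
   ([b,b,t,b,t,b,t,t,t,b,b,t,b,b,b,b,t,b,t,t,b,b,b,b], [t,t,t,b,b,t,b,t,t,t,b,t,t], 4, 7, 12),
   ([t,t,t,b,t,t,b,t,b,b], [t,b,b,t,b,b,t,t,t,t,b,b,t,b,b], 4, 9, 6),
   ([b,b,b,b,t,b,t,t,b,b,t,b,b,b,b], [b,b,b,t,t,b,b,t,b,t,b,b], 8, 7, 12),
   ([t,b,t,b,t,b,t,b,t,t,t,t,b,t], [b,t,b,t,b,b,b,b,t,t,b,t,b,t,b], 4, 8, 11),
   ([b,t,b,t,b,t,b,t,b,t,t,t,b,t,t,t,b], [b,b,t,b,t,b,t,t,b,b,b], 6, 10, 12),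
   ([b,b,t,b,t,t,b,t,b,t,b,t,t,t,b], [b,b,t,b,b,t,t,t,b,t,b,t,b,t,t,b], 4, 10, 12)] = true := by
  decide +kernel

theorem chk_I : chks (fun p => chk2 4 5 (mkS p)) [g0]
  [
   ([], [])] = true := by
  decide +kernel

theorem chk_II : chks (fun p => chk2 4 5 (mkS p)) patII
  [
   ([t,t,b,b,b,t,b,b,t,t,b,t,b,t,b,t,b], [t,t,b,b,t,b,b,t,t,b,b,t,b,b,t,t,b]),
   ([t,t,b,b,t,b,b,t,b,t,b,b,b,t], [t,t,t,b,b,t,b,b,b]),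
   ([t,t,b,b,t,b,b,b,t,b,t,b,b,t], [t,t,t,b,b,t,b,b]),
   ([t,t,b,b,t,b,b,b,b,t,b,t,b,t], [t,t,t,b,b,t,b]), ([t,b,t,b,t,t,t], [t,t,b,b,t,b,t]),
   ([t,t,b,t,b,t], [t,b,b,t,b,t,t,t]), ([t,t,t,b,t,b], [t,t,b,t,b,t,b,b,t,b,b,b])] = true := by
  decide +kernel

theorem chk_III : chks (fun p => chk2 10 11 (mkS p)) patIII
  [
   ([], []), ([t,t,b,b,t,b,b,t,b,t,b,b,b,t], [t,t,t,b,b,t,b,b,b]),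
   ([t,t,b,b,b,t,b,b,t,t,b,t,b,t,b,t,b], [t,t,b,b,t,b,b,t,t,b,b,t,b,b,t,t,b]),
   ([t,t,b,t,b,b,b,b,t,b,b,t,b,b,b,b], [t,t,t,b,t,b,b,b]),
   ([t,t,b,t,b,t,b,b,b,t,b,t,t], [t,t,t,b,t,b,b,b,t,b,t,b,b,b,t,b,b]),
   ([t,t,t,b,t,t,b,t,t,t,b], [t,b,t,b,b,b,t,t,b,b,b]),
   ([t,b,t,b,t,t,t,b,t], [b,t,b,t,b,b,b,t,b,b,b])] = true := by
  decide +kernel

theorem chk_IV : chks (fun p => chk2 10 11 (mkS p)) patIV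
  [
   ([t,t,b,b,b,t,b,b,t,t,b,t,b,t,b,t,b,b,b], [t,t,b,b,t,b,b,t,t,b,b,t,b,b,t,t,b,b,b]),
   ([t,t,b,b,t,b,b,t,b,t,b,b,b,b,b,t], [t,t,t,b,b,t,b,b,b,b,b]),
   ([t,t,b,b,t,b,b,b,t,b,t,b,b,b,b,t], [t,t,t,b,b,t,b,b,b,b]),
   ([t,t,b,b,t,b,b,b,b,t,b,t,b,b,b,t], [t,t,t,b,b,t,b,b,b]),
   ([t,t,b,b,t,b,b,b,b,b,t,b,t,b,b,t], [t,t,t,b,b,t,b,b]),
   ([t,t,b,b,t,b,b,b,b,b,b,t,b,t,b,t], [t,t,t,b,b,t,b]), ([t,b,t,b,t,t,t], [t,t,b,b,t,b,t]),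
   ([t,t,b,t,b,t], [t,b,b,t,b,t,t,t]), ([t,t,t,b,t,b], [t,t,b,t,b,t,b,b,t,b,b,b,b,b]),
   ([t,t,b,b,b,b,t,b,b,t,t,t,b,t,t,b,t,b,t,b,b,t,t,t], [t,t,t,b,b,t,t,b,t,b]),
   ([t,t,b,b,b,b,t,b,b,b,t,t,b,t,t,b,t,b,t,b], [t,t,b,b,t,b,b,t,t,b,b,b,t,b,b,b,t,t,t,b]),
   ([t,t,b,b,b,t,b,b,t,b,t,b,b,b,b,t,t], [t,t,t,b,b,t,t,b,b,b,b]),
   ([t,t,b,b,b,t,b,b,b,t,b,t,b,b,b,t,t], [t,t,t,b,b,t,t,b,b,b]),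
   ([t,t,b,b,b,t,b,b,b,b,t,b,t,b,b,t,t], [t,t,t,b,b,t,t,b,b]),
   ([t,t,b,b,b,t,b,b,b,b,b,t,b,t,b,t,t], [t,t,t,b,b,t,t,b]),
   ([t,b,t,b,b,t,t,t,t], [t,t,b,b,t,t,b,t]), ([t,t,b,t,b,b,t], [t,b,b,t,t,b,t,t,t]),
   ([t,t,t,b,t,b,b], [t,t,b,t,b,t,b,b,t,b,b,b,b]),
   ([t,t,b,t,b,b,b,b,b,t,b,b,b,b,b,t,b,b,b], [t,t,t,b,t,t,t,t,t,b,b,b,b]),
   ([t,t,b,b,b,b,b,t,b,b,t,t,b,t,t,b,t,b,t,b,t], [t,t,b,b,t,t,b,b,t,t,b,b,t,b,b,t,t,t,b]),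
   ([t,t,b,b,t,b,t,b,b,t,b,t], [t,t,t,b,t,b,t,b,b,b,b,b,b]),
   ([t,t,b,t,b,b,b,b,t,b,b,t,b,b,b,b,b,b], [t,t,t,b,t,b,b,b,b,b]),
   ([t,t,b,b,b,b,t,b,b,b,t,b,t,b,b,t,t,t], [t,t,t,b,b,t,t,t,b,b]),
   ([t,t,b,b,b,b,t,b,b,b,b,t,b,t,b,t,t,t], [t,t,t,b,b,t,t,t,b]),
   ([t,b,t,b,b,b,t,t,t,t,t], [t,t,b,b,t,t,t,b,t]), ([t,t,b,t,b,b,b,t], [t,b,b,t,t,t,b,t,t,t]),
   ([t,t,t,b,t,b,b,b], [t,t,b,t,b,t,b,b,t,b,b,b]),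
   ([t,t,b,t,b,b,b,b,b,b,t,b,b,b,b,t,b,b,b,b], [t,t,t,b,t,t,t,t,b,b,b]),
   ([t,t,b,b,b,b,b,t,b,b,b,b,t,t,b,t,b,t,b,t,b], [t,t,t,b,b,b,t,b,b,t,b,t,t,b,b,b,t,t,b]),
   ([t,t,b,b,t,b,t,b,b,t,b,b,t], [t,t,t,b,t,b,t,b,b,b,b,b,b]),
   ([t,t,b,b,b,b,t,b,t,t,b,t,b,t], [t,t,t,b,b,t,b,b,t,b,t,t,b,b,b,b,t,b,t,b]),
   ([t,t,b,t,b,b,b,b,b,t,b,b,t,b,b,b,b,b,b], [t,t,t,b,t,b,b,b,b]),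
   ([t,t,b,t,b,b,b,b,b,t,b,b,b,t,b,b,b,b,b], [t,t,t,b,t,t,b,b,b,b]),
   ([t,b,t,b,b,t,b,b,t,t,t,t], [t,b,b,b,t,b,b,t,b,b,t,t,t,t,b,t]),
   ([t,t,b,t,b,b,t,t,b,b,t,t], [b,t,b,t,b,b,t,b,t,b,b,b,b,b]),
   ([t,t,t,b,t,b,b,b,b], [t,t,b,t,b,t,b,b,t,b,b]),
   ([t,t,b,t,b,b,b,b,b,b,b,t,b,b,b,t,b,b,b,b,b], [t,t,t,b,t,t,t,b,b]),
   ([t,t,b,t,b,b,b,b,b,b,b,t,b,b,b,b,t,b,b,b,b], [t,t,t,b,t,t,t,t,b,b]),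
   ([t,t,b,b,t,b,t,b,b,t,b,b,b,t], [t,t,t,b,t,b,t,b,b,b,b,b,b]),
   ([t,t,b,t,b,t,b,b,b,b,t,b,t,t,b], [t,t,t,b,t,b,b,b,t,t,b,t,b,b,b,t,t,b,b]),
   ([t,t,b,t,b,b,b,t,b,b,b,t,b,t,t], [t,t,t,b,t,b,b,b,t,b,t,b,b,b,b,b,t,b,b]),
   ([t,t,b,t,b,b,b,b,b,b,t,b,b,t,b,b,b,b,b,b], [t,t,t,b,t,b,b,b]),
   ([t,b,t,b,b,t,b,b,b,t,t,t,t], [t,t,t,b,b,t,b,t,b,b,t,b,t,b,b,b,b,b]),
   ([t,t,b,t,b,b,t,t,b,b,b,t,t], [b,t,b,t,b,b,t,b,t,b,b,b,b,b]),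
   ([t,t,t,b,t,b,b,b,b,b], [t,t,b,t,b,t,b,b,t,b]),
   ([t,t,t,b,t,b,t,b,t,b,t,b,t,t,t,b,b,b], [t,t,b,t,t,t,b,b,t]),
   ([t,b,b,t,b,t,b,b,t,b,t,b,t,t], [t,t,b,t,t,t,t,b,b,t]),
   ([t,t,t,b,t,b,b,b,t,b,t,b,t,b,t,t,t,b], [t,t,b,t,t,t,t,t,b,b,t]),
   ([t,b,b,b,b,t,t,b,b,t,t,b,b,b,t,b,t], [t,b,b,t,b,b,t,t,b,t,b,b,t,t,b,b,t]),
   ([t,t,t,t,b,t,b,t,b,t,t,t,b,b,b,b,b,t,b,b,t], [b,b,b,t,b,t,b,t,b,b,t,b,t,b,t,t,t,b,b]),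
   ([t,b,t,b,t,t,t,b,t,t,t], [b,t,b,t,b,b,b,t,b,b,b]),
   ([t,t,t,b,t,t,b,t,b,t,b,t,t,t,t,b,b,b], [t,t,b,t,b,b,b,t]),
   ([b,b,b,b,b,t,t,t,b,t,b,t,b,b,b,t,b,t], [t,b,t,b,b,b,t,b,t]),
   ([t,t,t,t,t,b,t,t,b,t,t,t,b], [t,t,t,t,b,b,t,t,b,t,t,b,b,b]),
   ([b,b,t,b,t,b,t,b,b,t,b,b,b,t,t,t,b,t,b], [t,t,b,t,b,b,t,b,t,b]),
   ([t,t,b,b,t,b,t,b,b,t,b,t,t,b,t,b,t], [t,t,b,t,b,b,t,b,b,b,b]),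
   ([b,b,b,b,t,b,t,b,t,b,t,b,t,t,b,t,b,b,b,b], [t,t,b,t,b,b,t,b,b,b]),
   ([t,t,b,b,b,b,t,b,t,b,b,t,b,b,b,t,t,b,t,b,t], [t,t,b,t,b,b,t,b,b]),
   ([b,t,b,b,b,t,b,b,t,b,b,b,t,b,b,t,t,b,t,t,t,t,b], [t,t,b,t,b,b,t,b]),
   ([t,b,t,t,b,t,t,t,t,b,t,t], [b,t,b,t,b,b,b,b,t,b,b,b]),
   ([t,t,b,t,b,t,t,t,b,t,t], [b,t,t,b,t,b,b,b,b,t,b,b,b]),
   ([t,t,t,t,b,t,t,t,t,b,t,t,t,b,t], [b,t,b,t,b,b,t,t,b,t,b,b,b]),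
   ([t,t,t,t,t,b,t,t,t,b,t,t,t,b], [t,t,b,t,t,b,b,b,b,t,t,b,b,b]),
   ([t,b,t,b,t,b,t,t,t,t,t,b,b,t], [b,t,b,t,b,t,b,b,b,b,b,t,t,b,b,b]),
   ([t,b,t,t,t,b,t,b,t,b,t,b,t,t,t,t], [b,t,b,t,t,b,t,b,b,b,b]),
   ([t,t,b,t,b,t,t,b,t,b,t,b,b,b,b,b,t,b,b,b], [t,t,t,b,t,t,t,b,t,b,t,t]),
   ([t,t,b,b,b,t,b,t,t,b,t,b,t,b,t,t], [t,t,t,b,t,b,t,b,t,b,t,b,b,b,t,t,t,t,b]),
   ([b,b,b,b,b,b,t,b,t,b,t,t,t,b,t,t,t,t,b], [t,t,t,b,b,t,b,t,b,t,t,b,b,b,t,t]),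
   ([t,b,t,t,t,b,t,t,t,t,t,b,t], [b,t,b,t,b,b,b,b,b,t,b,b,b]),
   ([t,t,b,t,t,b,t,t,t,b,t,t], [b,t,b,t,b,b,t,b,t,b,b,b]),
   ([t,t,t,b,t,b,t,t,t,b,t], [b,t,t,t,b,t,b,b,b,b,b,t,b,b,b]),
   ([t,t,t,t,t,b,t,t,t,t,b,t,t,t,b], [t,t,t,b,t,b,b,b,t,t,b,b,b])] = true := by
  decide +kernel

end

end Pool.Agent.QuadEq.Star.N3a.H99
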