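import Pool.Agent.Lib.MP_b7851d_lc.Star.Expand
import Pool.Agent.Lib.MP_b7851d_lc.Star.N3a.H99.Fin

/-!
# Patterns with blocks

`Bl lam e f s φ blk S`: the state `S` is the pattern `s` with the names `φ` and the blocks `blk`.
`Bl.move`: words of moves of the pattern lift.
-/

set_option linter.unusedSectionVars false
set_option linter.unusedVariables false

namespace Pool.Agent.QuadEq.Star.N3a.H99

variable {α : Type} [DecidableEq α] {lam io : α → α} {e f : α}

/-! ### The Boolean functions -/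

theorem okB_spec {s : St ℕ} (h : okB s = true) : Ok xl 0 1 s := by
  simp only [okB, Bool.and_eq_true, List.all_eq_true, beq_iff_eq, bne_iff_ne, ne_eq,
    List.contains_iff_mem, decide_eq_true_eq] at h
  obtain ⟨⟨⟨⟨⟨⟨h1, h2⟩, h3⟩, h4⟩, h5⟩, h6⟩, h7⟩ := h
  exact ⟨fun x hx => (h1 x hx).1.1, fun x hx => (h1 x hx).1.2, fun x hx => (h1 x hx).2, rfl, h2, h3,
    h4, h5, h6, h7⟩

theorem take_rev {l : List ℕ} {a c : ℕ} (h : (l.reverse.take 2).reverse = [a, c]) :
    ∃ A, l = A ++ [a, c] := by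
  refine ⟨(l.reverse.drop 2).reverse, ?_⟩
  rw [← h, ← List.reverse_append, List.take_append_drop, List.reverse_reverse]

theorem dstB_spec {s : St ℕ} (h : dstB s = true) : Dst xl 0 1 s := by
  simp only [dstB, Bool.and_eq_true, beq_iff_eq, List.any_eq_true, List.contains_iff_mem] at h
  obtain ⟨⟨⟨⟨h1, h2⟩, h3⟩, h4⟩, h5⟩ := h
  exact ⟨okB_spec h1, take_rev h2, take_rev h3, h4, h5⟩

/-! ### Maps -/

theorem insL_mapOn {β : Type} {φ : β → α} [DecidableEq β] {m : β} {Z : List β} : ∀ {l : List β},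
    (∀ x ∈ l, φ x = φ m → x = m) → (insL m Z l).map φ = insL (φ m) (Z.map φ) (l.map φ)
  | [], _ => rfl
  | a :: l, h => by
    rw [insL, List.map_cons, insL]
    by_cases ha : a = m
    · rw [if_pos ha, if_pos (by rw [ha]), List.map_cons, List.map_append]
    · rw [if_neg ha, if_neg (fun h' => ha (h a (by simp) h')), List.map_cons,
        insL_mapOn (fun x hx => h x (List.mem_cons_of_mem _ hx))]

/-- The names of a pattern. -/
structure Nm (lam : α → α) (e f : α) (s : St ℕ) (φ : ℕ → α) : Prop where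
  /-- a state -/
  ok : Ok xl 0 1 s
  /-- different names -/
  inj : ∀ x ∈ s.P ++ s.Q, ∀ y ∈ s.P ++ s.Q, φ x = φ y → x = y
  /-- the pairing -/
  com : ∀ x ∈ s.P ++ s.Q, φ (xl x) = lam (φ x)
  /-- the name of `e` -/
  f0 : φ 0 = e
  /-- the name of `f` -/
  f1 : φ 1 = f

theorem Nm.of_perm {s t : St ℕ} {φ : ℕ → α} (h : Nm lam e f s φ)
    (hp : (t.P ++ t.Q).Perm (s.P ++ s.Q)) (ht : Ok xl 0 1 t) : Nm lam e f t φ :=
  ⟨ht, fun x hx y hy => h.inj x (hp.mem_iff.1 hx) y (hp.mem_iff.1 hy),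
    fun x hx => h.com x (hp.mem_iff.1 hx), h.f0, h.f1⟩

theorem Nm.tS {s t : St ℕ} {φ : ℕ → α} (h : Nm lam e f s φ) (ht : tS s = some t) :
    Star.tS (s.map φ) = some (t.map φ) := by
  obtain ⟨v, Q, h1, h2, h3, rfl⟩ := tS_eq_some.1 ht
  refine tS_eq_some.2 ⟨φ v, Q.map φ, by simp [St.map, h1], ?_, by simpa using h3, ?_⟩
  · intro h'
    exact h2 (h.inj v (by simp [h1]) _ h.ok.pm h')
  · have k1 := insL_mapOn (φ := φ) (m := s.m) (Z := [v]) (l := s.P)
      (fun x hx h' => h.inj x (by simp [hx]) _ h.ok.pm h')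
    have k2 := insL_mapOn (φ := φ) (m := s.m) (Z := [v]) (l := Q)
      (fun x hx h' => h.inj x (by simp [h1, hx]) _ h.ok.pm h')
    simp only [St.map, k1, k2, List.map_cons, List.map_nil]

theorem Nm.swap_map {s : St ℕ} {φ : ℕ → α} (h : Nm lam e f s φ) :
    (s.map φ).swap lam = (s.swap xl).map φ := by
  simp only [St.map, St.swap, h.com _ h.ok.pm]

theorem map_step {s t : St ℕ} {φ : ℕ → α} {b : Bool} (h : Nm lam e f s φ)
    (ht : step xl b s = some t) : step lam b (s.map φ) = some (t.map φ) := by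
  cases b
  · obtain ⟨r, h1, rfl⟩ := bS_iff.1 ht
    refine bS_iff.2 ⟨r.map φ, ?_, ?_⟩
    · rw [h.swap_map]
      obtain ⟨v, Q, k1, k2, k3, rfl⟩ := tS_eq_some.1 h1
      have hm : xl s.m ∈ s.P ++ s.Q := h.ok.mem _ h.ok.pm
      simp only [St.swap] at k1 k2
      refine tS_eq_some.2 ⟨φ v, Q.map φ, by simp [St.map, St.swap, k1], ?_, by simpa using k3, ?_⟩
      · intro h'
        exact k2 (h.inj v (by simp [k1]) _ hm h')
      · have q1 := insL_mapOn (φ := φ) (m := xl s.m) (Z := [v]) (l := s.Q)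
          (fun x hx h' => h.inj x (by simp [hx]) _ hm h')
        have q2 := insL_mapOn (φ := φ) (m := xl s.m) (Z := [v]) (l := Q)
          (fun x hx h' => h.inj x (by simp [k1, hx]) _ hm h')
        simp only [St.map, St.swap, q1, q2, List.map_cons, List.map_nil]
    · have hr : r.m ∈ s.P ++ s.Q := by
        obtain ⟨v, Q, k1, k2, k3, rfl⟩ := tS_eq_some.1 h1
        simp only [St.swap] at k1
        simp [k1]
      simp only [St.map, St.swap, h.com _ hr]
  · exact h.tS ht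

theorem map_exec {φ : ℕ → α} : ∀ {w : List Bool} {s t : St ℕ}, Nm lam e f s φ →
    exec xl w s = some t → exec lam w (s.map φ) = some (t.map φ)
  | [], s, t, _, h => by
    obtain rfl : s = t := by simpa [exec] using h
    rfl
  | b :: w, s, t, hs, h => by
    rw [exec_cons, Option.bind_eq_some_iff] at h
    obtain ⟨s₁, h1, h2⟩ := h
    rw [exec_cons, map_step hs h1, Option.bind_some]
    exact map_exec (hs.of_perm (step_perm hs.ok h1) (hs.ok.step h1)) h2

theorem Nm.okm {s : St ℕ} {φ : ℕ → α} (h : Nm lam e f s φ) : Ok lam e f (s.map φ) := by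
  have key : ∀ x, x ∈ (s.map φ).P ++ (s.map φ).Q ↔ ∃ y ∈ s.P ++ s.Q, φ y = x := fun x => by
    simp only [St.map, List.mem_append, List.mem_map]
    constructor
    · rintro (⟨y, h1, h2⟩ | ⟨y, h1, h2⟩)
      · exact ⟨y, Or.inl h1, h2⟩
      · exact ⟨y, Or.inr h1, h2⟩
    · rintro ⟨y, h1 | h1, h2⟩
      · exact Or.inl ⟨y, h1, h2⟩
      · exact Or.inr ⟨y, h1, h2⟩
  have h0 : (0 : ℕ) ∈ s.P ++ s.Q := List.mem_append_left _ (List.mem_of_getLast? h.ok.le)
  have h1 : (1 : ℕ) ∈ s.P ++ s.Q := List.mem_append_right _ (List.mem_of_getLast? h.ok.lf)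
  refine ⟨?_, ?_, ?_, ?_, ?_, ?_, ?_, (key _).2 ⟨s.m, h.ok.pm, rfl⟩, ?_, ?_⟩
  · intro x hx
    obtain ⟨y, hy, rfl⟩ := (key x).1 hx
    rw [← h.com y hy, ← h.com _ (h.ok.mem y hy), h.ok.inv y hy]
  · intro x hx
    obtain ⟨y, hy, rfl⟩ := (key x).1 hx
    rw [← h.com y hy]
    exact fun h' => h.ok.ne y hy (h.inj _ (h.ok.mem y hy) _ hy h')
  · intro x hx
    obtain ⟨y, hy, rfl⟩ := (key x).1 hx
    rw [← h.com y hy]
    exact (key _).2 ⟨_, h.ok.mem y hy, rfl⟩
  · rw [← h.f0, ← h.com 0 h0, ← h.f1]; rfl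
  · have : (s.map φ).P ++ (s.map φ).Q = (s.P ++ s.Q).map φ := by simp [St.map]
    rw [this]
    exact List.Nodup.map_on h.inj h.ok.nd
  · simp [St.map, List.getLast?_map, h.ok.le, h.f0]
  · simp [St.map, List.getLast?_map, h.ok.lf, h.f1]
  · rw [← h.f0]
    exact fun h' => h.ok.pe (h.inj _ h.ok.pm _ h0 h')
  · rw [← h.f1]
    exact fun h' => h.ok.pf (h.inj _ h.ok.pm _ h1 h')

/-! ### Patterns with blocks -/

/-- The state `S` is the pattern `s` with the names `φ` and the blocks `blk`. -/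
structure Bl (lam : α → α) (e f : α) (s : St ℕ) (φ : ℕ → α) (blk : α → List α) (S : St α) :
    Prop where
  /-- the pattern is a D-state -/
  ds : Dst xl 0 1 s
  /-- the names -/
  nm : Nm lam e f s φ
  /-- no block before `e` -/
  be : blk e = []
  /-- no block before `f` -/
  bf : blk f = []
  /-- the state -/
  eq : S = expand blk (s.map φ)
  /-- the state is a state -/
  ok : Ok lam e f S

theorem Bl.dst {s : St ℕ} {φ : ℕ → α} {blk : α → List α} {S : St α} (h : Bl lam e f s φ blk S) :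
    Dst lam e f S := by
  obtain ⟨A, hA⟩ := h.ds.top
  obtain ⟨B, hB⟩ := h.ds.bot
  have e1 : lam S.m = φ (xl s.m) := by
    rw [h.eq]
    exact (h.nm.com _ h.nm.ok.pm).symm
  have e2 : S.m = φ s.m := by rw [h.eq]; rfl
  have memP : ∀ x ∈ s.P, φ x ∈ S.P := fun x hx => by
    rw [h.eq]
    exact mem_expL.2 (Or.inl (List.mem_map_of_mem hx))
  have memQ : ∀ x ∈ s.Q, φ x ∈ S.Q := fun x hx => by
    rw [h.eq]
    exact mem_expL.2 (Or.inl (List.mem_map_of_mem hx))
  refine ⟨h.ok, ⟨expL blk (A.map φ) ++ blk (lam S.m), ?_⟩, ⟨expL blk (B.map φ) ++ blk S.m, ?_⟩,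
    ?_, ?_⟩
  · have : S.P = expL blk (s.P.map φ) := by rw [h.eq]; rfl
    rw [this, hA, List.map_append, expL_append]
    simp only [List.map_cons, List.map_nil, expL_cons, h.nm.f0, h.be, ← e1]
    simp [expL]
  · have : S.Q = expL blk (s.Q.map φ) := by rw [h.eq]; rfl
    rw [this, hB, List.map_append, expL_append]
    simp only [List.map_cons, List.map_nil, expL_cons, h.nm.f1, h.bf, ← e2]
    simp [expL]
  · obtain ⟨x, hx, hx'⟩ := h.ds.tt
    refine ⟨φ x, memP x hx, ?_⟩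
    rw [← h.nm.com x (by simp [hx])]
    exact memP _ hx'
  · obtain ⟨x, hx, hx'⟩ := h.ds.bb
    refine ⟨φ x, memQ x hx, ?_⟩
    rw [← h.nm.com x (by simp [hx])]
    exact memQ _ hx'

/-- Words of moves of the pattern, there and back, lift. -/
theorem Bl.move {s t : St ℕ} {φ : ℕ → α} {blk : α → List α} {S : St α}
    (h : Bl lam e f s φ blk S) {w w' : List Bool} {k : ℕ} (h1 : exec xl w s = some t)
    (h2 : exec xl w' t = some s) (ht : Dst xl 0 1 t) (k1 : w.length ≤ k) (k2 : w'.length ≤ k) :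
    Con lam k S (expand blk (t.map φ)) ∧ Bl lam e f t φ blk (expand blk (t.map φ)) := by
  obtain ⟨o1, p1⟩ := h.nm.ok.exec h1
  have nt := h.nm.of_perm p1 o1
  have hS : Ok lam e f (expand blk (s.map φ)) := h.eq ▸ h.ok
  have r1 := (exec_lift (map_exec h.nm h1) h.nm.okm hS).1
  have hT : Ok lam e f (expand blk (t.map φ)) := (Ok.runs hS r1).1
  have r2 := (exec_lift (map_exec nt h2) nt.okm hT).1
  rw [← h.eq] at r1 r2
  exact ⟨⟨r1.mono k1, r2.mono k2⟩, ht, nt, h.be, h.bf, rfl, hT⟩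

end Pool.Agent.QuadEq.Star.N3a.H99
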